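import Mathlib
import Pool.Agent.Lib.PolyTime.Defs
import Pool.Agent.Lib.MP_a0a715_lc.Defs
import Pool.Agent.Lib.MP_a0a715_lc_NB.Defs
import Pool.Agent.Lib.MP_a0a715_lc_SE.Defs
import Pool.Agent.Lib.MP_a0a715_lc_SE.Glob
import Pool.Agent.Lib.MP_a0a715_lc_SE.Restr
import Pool.Agent.Lib.MP_a0a715_lc_SE.Easy
import Pool.Agent.Lib.MP_a0a715_lc_SE.Hard

/-!
# Circuit-FLIP and sign epistasis: a trichotomy

Bit `i` reacts to bit `j` at the input `x` if the flip of bit `j` changes whether the flip of bit
`i` decreases the cost.  A pair of bits is mutual at `x` if each of them reacts to the other one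
(reciprocal sign epistasis), and one-way if exactly one of them reacts (simple sign epistasis).
Consider circuits without ties in which at most `a` bits meet all the mutual pairs and at most
`b` bits meet all the one-way pairs, where each of the bounds is a number or infinite.

* If `b ≤ 1`, then every sequence of improving flips has length at most `n² + n`, whatever the
  mutual pairs are.
* If `a` and `b` are finite, then there is a polynomial-time solver.
* If `a` is infinite and `b ≥ 2`, then the problem is as hard as Circuit-FLIP without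
  restriction.
* If `a` is finite and `b` is infinite, then it is equivalent to the case `a = 0`, in which every
  face of the cube has exactly one local minimum.
-/

namespace Pool.Agent.Results.MP_a0a715_lc.EpistasisTrichotomy

open Pool.Agent.PolyTime Pool.Agent.MPa0a715

/-- Let `a` and `b` be bounds, finite or infinite.

* If `b ≤ 1`, then every sequence of improving flips in a circuit within the bounds has length
  at most `n² + n`.
* If `b ≤ 1`, or if `a` and `b` are finite, then Circuit-FLIP on the circuits within the bounds
  has a polynomial-time solver.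
* If `a` is finite and `b` is infinite, then it has a polynomial-time solver if and only if it
  has one on the circuits without ties and without mutual pairs.
* If `a` is infinite and `b ≥ 2`, then unrestricted Circuit-FLIP PLS-reduces to it, so that it
  has a polynomial-time solver if and only if unrestricted Circuit-FLIP has one. -/
theorem result (a b : ℕ∞) :
    (b ≤ 1 → ∀ (C : Circuit) (x : List Bool) (l : List ℕ), C.Epistasis a b →
      x.length = C.n → C.Improving x l → l.length ≤ C.n * C.n + C.n) ∧
    (b ≤ 1 ∨ (a ≠ ⊤ ∧ b ≠ ⊤) → HasSolver (Circuit.Epistasis a b)) ∧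
    (a ≠ ⊤ ∧ b = ⊤ →
      (HasSolver (Circuit.Epistasis a b) ↔ HasSolver (Circuit.Epistasis 0 ⊤))) ∧
    (a = ⊤ ∧ 2 ≤ b → PLSReduces (fun _ => True) (Circuit.Epistasis a b) ∧
      (HasSolver (Circuit.Epistasis a b) ↔ HasSolver fun _ => True)) := by
  refine ⟨fun hb C x l hC hx hl => SE.improving_short (SE.mono le_rfl hb hC) hx hl, ?_, ?_, ?_⟩
  · rintro (hb | ⟨ha, hb⟩)
    · exact OD.solver_mono (fun C h => SE.mono le_rfl hb h) (SE.easy1 a)
    · obtain ⟨k, rfl⟩ := ENat.ne_top_iff_exists.1 ha
      obtain ⟨l, rfl⟩ := ENat.ne_top_iff_exists.1 hb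
      exact SE.easy_fin SE.glob SE.restr k l
  · rintro ⟨ha, rfl⟩
    obtain ⟨k, rfl⟩ := ENat.ne_top_iff_exists.1 ha
    exact SE.easy_iff SE.glob SE.restr k
  · rintro ⟨rfl, hb⟩
    have h1 : PLSReduces (fun _ => True) (Circuit.Epistasis ⊤ b) := by
      obtain ⟨g, r, hg, hr, hgr⟩ := SE.hard2
      refine ⟨g, r, hg, hr, fun C hC hC' => ?_⟩
      obtain ⟨h1, h2, h3⟩ := hgr C hC hC'
      exact ⟨h1, SE.mono le_rfl hb h2, h3⟩
    exact ⟨h1, OD.solver_of_red h1, OD.solver_mono fun _ _ => trivial⟩

end Pool.Agent.Results.MP_a0a715_lc.EpistasisTrichotomy
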