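import Mathlib
import Pool.Agent.Lib.PolyTime.Defs
import Pool.Agent.Lib.MP_a0a715_lc.Defs
import Pool.Agent.Lib.MP_a0a715_lc_IN.Defs
import Pool.Agent.Lib.MP_a0a715_lc_BW.Defs
import Pool.Agent.Lib.MP_a0a715_lc_BW.Main
import Pool.Agent.Lib.MP_a0a715_lc_BQ.Main
import Pool.Agent.Lib.MP_a0a715_lc_BT.SynDefs
import Pool.Agent.Lib.MP_a0a715_lc_BT.SynRed

/-!
# Circuit-FLIP and the locality of the influences

Input bit `i` influences output bit `j` if, for some input, flipping bit `i` changes output bit
`j`. We classify the complexity of Circuit-FLIP in terms of three parameters of this relation: the
maximal number `a` of input bits influencing an output bit, the maximal number `q` of output bits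
influenced by an input bit, and the smallest `β` such that the output bits influenced by an input
bit are always in a window of `β` consecutive positions.

There is a polynomial-time solver if `a ≤ 2`, or `q ≤ 2` (or only no flip changes more than two
output bits), or `β` is bounded, or `a * β` is at most a constant times `log n`. On the other hand
the problem is as hard as Circuit-FLIP without restriction if `a ≤ 3`, `q ≤ 3` and `β ≤ n ^ ε`, and
if `a ≤ n ^ ε`, `q ≤ 3` and `β ≤ ε * log n`. In particular the classification for constant bounds
`a` and `q` is complete: the problem is easy if `min a q ≤ 2`, and hard if `min a q ≥ 3`. In the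
first hardness result the bounds hold even for the paths in the circuit, so every output bit is
computed from three input bits, and every input bit is used for three output bits. If `q ≥ 3` then
all the bounds between the easy and the hard cases, such as `a * β = (log n) ^ 2`, allow algorithms
which need time `2 ^ (n ^ o(1))`, by the first statement.

The solver for small windows first looks for local minima of modified costs, in which every block
of `β` outputs reads only the inputs in two consecutive levels. Such a local minimum exists with
few ones in every level, so dynamic programming finds one; when it is not a local minimum of the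
true costs then some input belongs to a higher level. For the lower bound on windows of length
`ε * log n` the new circuit stores solutions of the given one in many levels, one for each cost
bit, and block `b` compares the solutions stored in level `b` with those in level `b + 1`. All
copying is controlled by clocks with a logarithmic number of bits, each of which occurs in three
digits. For the lower bound with `a ≤ 3` and `q ≤ 3` the evaluation of the given circuit is
simulated by monotone constraints with three variables. Fan-out is replaced by chains, in which
every copy can be released by a flag; any flag that is up raises all the variables.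
-/

namespace Pool.Agent.Results.MP_a0a715_lc.LocalityClassification

open Pool.Agent.PolyTime Pool.Agent.MPa0a715

/-- There is one algorithm which, given a circuit and a list `w`, works in polynomial time and
finds a local minimum of the circuit if no flip changes more than two output bits, or if every
output bit is influenced by at most two input bits, or if the influenced output bits are in windows
of length `β` and `w` has at least `(n + 1) ^ (8 ^ β)` or, if every output bit is influenced by at
most `a` input bits, at least `2 ^ (a * β)` entries. Hence there are polynomial-time solvers if
`β` or `a * β / log n` is bounded. Circuit-FLIP is as hard as without restriction if `a ≤ 3`,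
`q ≤ 3` and `β ≤ n ^ ε`, even when these are bounds for the paths in the circuit, or if
`a ≤ n ^ ε`, `q ≤ 3` and `β ≤ ε * log n`, where `ε = 1 / κ`. For constants `a` and `q` there is a
polynomial-time solver if `min a q ≤ 2`, and the problem is hard, even with bounds for the paths
in the circuit, if `min a q ≥ 3`. -/
theorem result :
    (∃ f : Circuit × List Unit → List Bool, IsPolyTime enc enc f ∧
      ∀ (C : Circuit) (w : List Unit), C.Valid →
        (C.Changes 2 ∨ C.Bounded fun n a _ β =>
          a ≤ 2 ∨ (n + 1) ^ (8 ^ β) ≤ w.length ∨ 2 ^ (a * β) ≤ w.length) →
        C.IsLocalMin (f (C, w))) ∧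
    (∀ c : ℕ, HasSolver fun C => C.Changes 2 ∨ C.Bounded fun n a q β =>
      a ≤ 2 ∨ q ≤ 2 ∨ β ≤ c ∨ a * β ≤ c * Nat.log 2 n) ∧
    (∀ κ : ℕ, 0 < κ →
      Hard (Circuit.SynBounded fun n a q β => a ≤ 3 ∧ q ≤ 3 ∧ β ^ κ ≤ n) ∧
      Hard (Circuit.Bounded fun n a q β => a ^ κ ≤ n ∧ q ≤ 3 ∧ κ * β ≤ Nat.log 2 n)) ∧
    (∀ a q : ℕ,
      (min a q ≤ 2 → HasSolver fun C => C.Arity a ∧ C.Influence q) ∧
      (3 ≤ min a q → Hard fun C => C.SynArity a ∧ C.SynInfluence q)) := by
  refine ⟨?_, fun c => ?_, fun κ hκ => ⟨BT.hard_three κ hκ, BQ.hard_log κ⟩, BT.dichotomy⟩
  · obtain ⟨f, hf, h⟩ := BW.easy_all
    exact ⟨f, hf.isPolyTime, h⟩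
  · refine OD.solver_mono (fun C h => ?_) (BW.easy_const c)
    rcases h with h | ⟨a, q, β, h, ha, hq, hβ⟩
    · exact Or.inl h
    · rcases h with h | h | h
      · exact Or.inr ⟨a, q, β, Or.inl h, ha, hq, hβ⟩
      · exact Or.inl (IN.changes_mono h (IN.influence_changes hq))
      · exact Or.inr ⟨a, q, β, Or.inr h, ha, hq, hβ⟩

end Pool.Agent.Results.MP_a0a715_lc.LocalityClassification
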