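import Pool.Agent.Lib.MP_a0a715_lc_BI.BdHard
import Pool.Agent.Lib.MP_a0a715_lc_OD.EPT

/-!
# Circuit-FLIP when the outputs are given functions of few inputs: a dichotomy

For every finite list `Φ` of Boolean functions, Circuit-FLIP restricted to circuits whose outputs
are obtained from functions in `Φ` by substituting constants, inputs and negated inputs either has
a polynomial-time solver or is as hard as Circuit-FLIP without restriction.  The criterion is a
pattern of six points.  In the second case the problem is hard even for circuits all of whose
inputs influence at most 2000 output bits.

For the hardness a circuit is first simulated by a system of conjunctions of at most three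
literals in which every variable occurs at most seven times: there are two slots for solutions,
each with a copy of the circuit in which every value is represented by two variables (one for
each possible value) and their copies.  Then every conjunction is replaced by constraints given by
a function with the pattern.
-/

namespace Pool.Agent.Results.MP_a0a715_lc.OutputDichotomy

open Pool.Agent.MPa0a715 Pool.Agent.MPa0a715.OD

/-- Let `Φ` be a finite list of Boolean functions. If no function in `Φ` has the pattern, then
Circuit-FLIP for circuits whose outputs are obtained from functions in `Φ` by substituting
constants, inputs and negated inputs has a polynomial-time solver. If some function in `Φ` has the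
pattern, then Circuit-FLIP without restriction reduces in the sense of PLS to this problem for
circuits all of whose inputs influence at most 2000 outputs, and with or without this bound there
is a polynomial-time solver if and only if there is one for Circuit-FLIP without restriction. -/
theorem result (Φ : List BFun) :
    ((∀ φ ∈ Φ, ¬ φ.Pattern) → HasSolver (Circuit.OutsIn Φ)) ∧
    ((∃ φ ∈ Φ, φ.Pattern) →
      PLSReduces (fun _ => True) (fun C => C.OutsIn Φ ∧ C.Influence 2000) ∧
      (HasSolver (fun C => C.OutsIn Φ ∧ C.Influence 2000) ↔ HasSolver (fun _ => True)) ∧
      (HasSolver (Circuit.OutsIn Φ) ↔ HasSolver (fun _ => True))) := by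
  refine ⟨easySide, ?_⟩
  rintro ⟨φ, hφ, h⟩
  have hred := Bd.hard_bounded hφ h
  exact ⟨hred, ⟨solver_of_red hred, solver_mono fun _ _ => trivial⟩,
    ⟨fun h1 => solver_of_red hred (solver_mono (fun _ h2 => h2.1) h1),
      solver_mono fun _ _ => trivial⟩⟩

end Pool.Agent.Results.MP_a0a715_lc.OutputDichotomy
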