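import Mathlib
import Pool.Agent.Lib.PolyTime.Defs
import Pool.Agent.Lib.MP_a0a715_lc.Defs
import Pool.Agent.Lib.MP_a0a715_lc_NB.Defs
import Pool.Agent.Lib.MP_a0a715_lc_WM.Weak
import Pool.Agent.Lib.MP_a0a715_lc_WM.Main
import Pool.Agent.Lib.MP_a0a715_lc_WM.Sample
import Pool.Agent.Lib.MP_a0a715_lc_WM.Circ
import Pool.Agent.Lib.MP_a0a715_lc_WM.Lin
import Pool.Agent.Lib.MP_a0a715_lc_WM.Roots
import Pool.Agent.Lib.MP_a0a715_lc_WM.Had
import Pool.Agent.Lib.MP_a0a715_lc_WM.Prime
import Pool.Agent.Lib.MP_a0a715_lc_OD.HardSide

/-!
# Circuit-FLIP and weak local minima: the threshold one half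

A local minimum is an input vector none of whose `n` neighbours is better. How many better
neighbours can be allowed without making the problem easy?

For every `β > 3 / 4` it is as hard as Circuit-FLIP to find, for a given circuit, an input with at
most `n / 2 - n ^ β` better neighbours, even for randomized algorithms. In the reduction a word of
`N` bits stores a solution `x` of the given circuit if it is correlated with the code word of `x`,
in the concatenation of a Reed-Solomon code with a Hadamard code, or with one of the intermediate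
words on the way to the code word of the next solution. A word wants to move towards the next
intermediate word, with which it is not yet correlated, so that about half of all flips are
improving, until `x` is a local minimum. The stored solutions are computed by list decoding.

On the other hand, for every `K` random sampling finds an input with at most
`n / 2 - K * √ (n * log n)` better neighbours: for every `r` the number of inputs with fewer than
`r` better neighbours is at least `(1 / r) * ∑ j < r, (r - j) * (n choose j)`.
-/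

namespace Pool.Agent.Results.MP_a0a715_lc.WeakMinima

open Pool.Agent.PolyTime Pool.Agent.MPa0a715

/-- For every `β > 3 / 4`, Circuit-FLIP PLS-reduces to finding, for a given circuit with `n`
inputs, an input with at most `max 0 (n / 2 - n ^ β)` better neighbours, so that this problem has
a deterministic or randomized polynomial-time solver if and only if Circuit-FLIP has one. For
every `K` there is a randomized polynomial-time algorithm which finds an input with at most
`max 0 (n / 2 - K * √ (n * log n))` better neighbours. -/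
theorem result :
    (∀ β : ℝ, 3 / 4 < β →
      (∃ (g : Circuit → Circuit) (h : Circuit × List Bool → List Bool),
        IsPolyTime enc enc g ∧ IsPolyTime enc enc h ∧ ∀ C : Circuit, C.Valid →
          (g C).Valid ∧ ∀ y, (g C).FewBetter ((g C).n / 2 - ((g C).n : ℝ) ^ β) y →
            C.IsLocalMin (h (C, y))) ∧
      ((∃ f : Circuit → List Bool, IsPolyTime enc enc f ∧
          ∀ C : Circuit, C.Valid → C.FewBetter (C.n / 2 - (C.n : ℝ) ^ β) (f C)) ↔
        HasSolver fun _ => True) ∧
      ((HasRandomSolver fun C y => C.FewBetter (C.n / 2 - (C.n : ℝ) ^ β) y) ↔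
        HasRandomSolver fun C y => C.IsLocalMin y)) ∧
    ∀ K : ℝ, HasRandomSolver fun C y =>
      C.FewBetter (C.n / 2 - K * √(C.n * Real.log C.n)) y := by
  refine ⟨fun β hβ => ?_, WM.B.random⟩
  obtain ⟨T⟩ := WM.A.Tools.exists WM.linStmt WM.rootsStmt WM.hadStmt WM.primeStmt
  have hred := WM.A.hard T WM.circStmt hβ
  have hfew : ∀ (C : Circuit) (y : List Bool), C.IsLocalMin y →
      C.FewBetter (C.n / 2 - (C.n : ℝ) ^ β) y := by
    intro C y hy
    refine ⟨hy.1, le_max_of_le_left ?_⟩
    have h1 : C.better y = ∅ := by
      unfold Circuit.better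
      rw [Finset.filter_eq_empty_iff]
      intro i hi
      rw [Finset.mem_range] at hi
      exact not_lt.2 (hy.2 i hi)
    rw [h1]
    simp
  refine ⟨hred, ⟨?_, ?_⟩, ⟨?_, ?_⟩⟩
  · obtain ⟨g, h, hg, hh, hgh⟩ := hred
    rintro ⟨f, hf, hfC⟩
    have hf' := isPolyTime_iff.1 hf
    have hg' := isPolyTime_iff.1 hg
    have hh' := isPolyTime_iff.1 hh
    refine ⟨fun C => h (C, f (g C)), (hh'.comp (PTime.id.pair (hf'.comp hg'))).isPolyTime,
      fun C hC _ => ?_⟩
    obtain ⟨h1, h2⟩ := hgh C hC
    exact h2 _ (hfC _ h1)
  · rintro ⟨f, hf, hfC⟩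
    exact ⟨f, hf, fun C hC => hfew C _ (hfC C hC trivial)⟩
  · obtain ⟨g, h, hg, hh, hgh⟩ := hred
    rintro ⟨t, f, ht, hf, hfC⟩
    have ht' := isPolyTime_iff.1 ht
    have hf' := isPolyTime_iff.1 hf
    have hg' := isPolyTime_iff.1 hg
    have hh' := isPolyTime_iff.1 hh
    refine ⟨fun C => t (g C), fun p => h (p.1, f (g p.1, p.2)), (ht'.comp hg').isPolyTime,
      (hh'.comp (PTime.fst.pair (hf'.comp ((hg'.comp PTime.fst).pair PTime.snd)))).isPolyTime,
      fun C hC => ?_⟩
    obtain ⟨h1, h2⟩ := hgh C hC
    refine (hfC _ h1).trans (Nat.mul_le_mul_left _ (Set.ncard_le_ncard ?_ (Set.toFinite _)))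
    intro ρ hρ
    exact h2 _ hρ
  · rintro ⟨t, f, ht, hf, hfC⟩
    refine ⟨t, f, ht, hf, fun C hC => (hfC C hC).trans
      (Nat.mul_le_mul_left _ (Set.ncard_le_ncard ?_ (Set.toFinite _)))⟩
    intro ρ hρ
    exact hfew C _ hρ

end Pool.Agent.Results.MP_a0a715_lc.WeakMinima
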